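import Pool.Agent.helper6.EU.SpecT

/-!
# Project eu (MP_ad8ced_nt), row TIB (helper81): type I for one prime
-/

set_option autoImplicit false

open Finset

noncomputable section

namespace Pool.Agent.EU

open Pool.Agent.FI Pool.Agent.FJ

private theorem TIB_asy (η : ℝ) (hη : 0 < η) (k : ℕ) : ∃ N₀ : ℕ, ∀ N : ℕ, N₀ ≤ N →
    12 * Real.log N ^ k ≤ (N : ℝ) ^ (η / 8) ∧ 24 ≤ Real.log N := by
  have h1 := (isLittleO_log_rpow_rpow_atTop (k : ℝ) (show 0 < η / 8 by positivity)).bound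
    (show (0 : ℝ) < 1 / 12 by norm_num)
  have h3 := Real.tendsto_log_atTop.eventually_ge_atTop 24
  have h4 := tendsto_natCast_atTop_atTop (R := ℝ) |>.eventually (h1.and h3)
  obtain ⟨N₀, h5⟩ := Filter.eventually_atTop.1 h4
  refine ⟨N₀, fun N hN => ?_⟩
  obtain ⟨h6, h8⟩ := h5 N hN
  refine ⟨?_, h8⟩
  rw [Real.rpow_natCast, Real.norm_of_nonneg (by positivity),
    Real.norm_of_nonneg (by positivity)] at h6
  linarith

private theorem TIB_H (U : ℕ) : ∑ e ∈ Icc 1 U, (1 : ℝ) / e ≤ 1 + Real.log U := by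
  have h1 := harmonic_le_one_add_log U
  rw [harmonic_eq_sum_Icc] at h1
  push_cast at h1
  simpa [one_div] using h1

private theorem TIB_div {d U : ℕ} (hd : d ∈ Icc 1 U) :
    (#d.divisors : ℝ) = ∑ e ∈ Icc 1 U, if e ∣ d then (1 : ℝ) else 0 := by
  rw [mem_Icc] at hd
  have h1 : d.divisors = (Icc 1 U).filter fun e => e ∣ d := by
    ext e
    rw [mem_filter, Nat.mem_divisors, mem_Icc]
    constructor
    · rintro ⟨h2, h3⟩
      exact ⟨⟨Nat.pos_of_dvd_of_pos h2 (by omega), (Nat.le_of_dvd (by omega) h2).trans hd.2⟩, h2⟩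
    · rintro ⟨_, h2⟩
      exact ⟨h2, by omega⟩
  rw [h1, ← Finset.sum_filter, Finset.sum_const, nsmul_eq_mul, mul_one]

private theorem TIB_tau (U : ℕ) : ∑ d ∈ Icc 1 U, (#d.divisors : ℝ) / d ≤ (1 + Real.log U) ^ 2 ∧
    ∑ d ∈ Icc 1 U, (#d.divisors : ℝ) ≤ U * (1 + Real.log U) := by
  have hH := TIB_H U
  have hH0 : 0 ≤ ∑ e ∈ Icc 1 U, (1 : ℝ) / e := Finset.sum_nonneg fun e _ => by positivity
  constructor
  · have h1 : ∑ d ∈ Icc 1 U, (#d.divisors : ℝ) / d =
        ∑ e ∈ Icc 1 U, ∑ d ∈ Icc 1 U with e ∣ d, (1 : ℝ) / d := by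
      have h2 : ∀ d ∈ Icc 1 U, (#d.divisors : ℝ) / d =
          ∑ e ∈ Icc 1 U, if e ∣ d then (1 : ℝ) / d else 0 := by
        intro d hd
        rw [TIB_div hd, Finset.sum_div]
        refine Finset.sum_congr rfl fun e _ => ?_
        split_ifs <;> simp
      rw [Finset.sum_congr rfl h2, Finset.sum_comm]
      refine Finset.sum_congr rfl fun e _ => ?_
      rw [Finset.sum_filter]
    rw [h1]
    have h3 : ∀ e ∈ Icc 1 U, ∑ d ∈ Icc 1 U with e ∣ d, (1 : ℝ) / d ≤
        (1 / e) * ∑ f ∈ Icc 1 U, (1 : ℝ) / f := by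
      intro e he
      rw [mem_Icc] at he
      have h4 : (Icc 1 U).filter (fun d => e ∣ d) ⊆ (Icc 1 U).image fun f => e * f := by
        intro d hd
        rw [mem_filter, mem_Icc] at hd
        obtain ⟨⟨h5, h6⟩, f, rfl⟩ := hd
        rw [mem_image]
        refine ⟨f, ?_, rfl⟩
        rw [mem_Icc]
        constructor
        · rcases Nat.eq_zero_or_pos f with h | h
          · rw [h, mul_zero] at h5
            omega
          · exact h
        · exact (Nat.le_mul_of_pos_left f (by omega)).trans h6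
      refine (Finset.sum_le_sum_of_subset_of_nonneg h4 fun _ _ _ => by positivity).trans ?_
      rw [Finset.sum_image (fun a _ b _ h => Nat.eq_of_mul_eq_mul_left (by omega) h), Finset.mul_sum]
      refine Finset.sum_le_sum fun f _ => ?_
      rw [Nat.cast_mul, one_div_mul_one_div]
    refine (Finset.sum_le_sum h3).trans ?_
    rw [← Finset.sum_mul]
    nlinarith
  · have h1 : ∑ d ∈ Icc 1 U, (#d.divisors : ℝ) =
        ∑ e ∈ Icc 1 U, ∑ d ∈ Icc 1 U with e ∣ d, (1 : ℝ) := by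
      rw [Finset.sum_congr rfl fun d hd => TIB_div hd, Finset.sum_comm]
      refine Finset.sum_congr rfl fun e _ => ?_
      rw [Finset.sum_filter]
    rw [h1]
    have h3 : ∀ e ∈ Icc 1 U, ∑ d ∈ Icc 1 U with e ∣ d, (1 : ℝ) ≤ U * (1 / e) := by
      intro e he
      rw [mem_Icc] at he
      have h4 : (Icc 1 U).filter (fun d => e ∣ d) ⊆ (Icc 1 (U / e)).image fun f => e * f := by
        intro d hd
        rw [mem_filter, mem_Icc] at hd
        obtain ⟨⟨h5, h6⟩, f, rfl⟩ := hd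
        rw [mem_image]
        refine ⟨f, ?_, rfl⟩
        rw [mem_Icc]
        constructor
        · rcases Nat.eq_zero_or_pos f with h | h
          · rw [h, mul_zero] at h5
            omega
          · exact h
        · rw [Nat.le_div_iff_mul_le (by omega), mul_comm]
          exact h6
      rw [Finset.sum_const, nsmul_eq_mul, mul_one]
      have h5 : #((Icc 1 U).filter (fun d => e ∣ d)) ≤ U / e := by
        refine (Finset.card_le_card h4).trans (Finset.card_image_le.trans ?_)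
        rw [Nat.card_Icc, Nat.add_sub_cancel]
      have h6 : (#((Icc 1 U).filter (fun d => e ∣ d)) : ℝ) ≤ ((U / e : ℕ) : ℝ) := by
        exact_mod_cast h5
      refine h6.trans (Nat.cast_div_le.trans ?_)
      rw [mul_one_div]
    refine (Finset.sum_le_sum h3).trans ?_
    rw [← Finset.mul_sum]
    exact mul_le_mul_of_nonneg_left hH (Nat.cast_nonneg U)

private theorem TIB_cc (U V q : ℕ) : |cc U V q| ≤ Real.log q := by
  unfold cc
  refine (Finset.abs_sum_le_sum_abs _ _).trans ?_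
  have h1 : ∑ m ∈ q.divisors with m ≤ U ∧ q / m ≤ V,
      |ArithmeticFunction.vonMangoldt m * (ArithmeticFunction.moebius (q / m) : ℝ)| ≤
      ∑ m ∈ q.divisors with m ≤ U ∧ q / m ≤ V, ArithmeticFunction.vonMangoldt m := by
    refine Finset.sum_le_sum fun m _ => ?_
    rw [abs_mul, abs_of_nonneg ArithmeticFunction.vonMangoldt_nonneg]
    refine mul_le_of_le_one_right ArithmeticFunction.vonMangoldt_nonneg ?_
    have h2 : |ArithmeticFunction.moebius (q / m)| ≤ 1 := ArithmeticFunction.abs_moebius_le_one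
    exact_mod_cast h2
  refine h1.trans ?_
  rw [← ArithmeticFunction.vonMangoldt_sum]
  exact Finset.sum_le_sum_of_subset_of_nonneg (Finset.filter_subset _ _)
    fun _ _ _ => ArithmeticFunction.vonMangoldt_nonneg

private theorem TIB_Z2 (r : ℕ) : 2 ≤ Zr r := by
  unfold Zr
  calc 2 = 2 ^ 1 := by norm_num
    _ ≤ 2 ^ 2 ^ r := Nat.pow_le_pow_right (by norm_num) Nat.one_le_two_pow

private theorem TIB_odd (r d : ℕ) (h : RgN (Zr r) d) : Odd d := by
  rw [← Nat.not_even_iff_odd]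
  intro h1
  have h2 := h 2 Nat.prime_two (even_iff_two_dvd.1 h1)
  have h3 := TIB_Z2 r
  omega

private theorem TIB_rg (Z d n : ℕ) (h : RgN Z n) (hd : d ∣ n) : RgN Z d :=
  fun p hp hpd => h p hp (hpd.trans hd)

private theorem TIB_pos (x A : ℕ) (hA : A ≤ x) (l a : ℤ) (hl : (x : ℤ) < l) (ha : a ∈ Icc (1 : ℤ) A) :
    0 < nn (a, l) := by
  rw [mem_Icc] at ha
  have hAx : (A : ℤ) ≤ x := by exact_mod_cast hA
  have hx0 : (0 : ℤ) ≤ x := Int.natCast_nonneg x
  unfold nn N8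
  simp only
  rw [Int.natAbs_pos]
  intro h
  nlinarith [ha.1, ha.2]

private theorem TIB_cop (x d : ℕ) (hd : 1 ≤ d) (hdx : d ≤ x) (l : ℤ) (hl : (x : ℤ) < l)
    (hp : l.toNat.Prime) : IsCoprime l (d : ℤ) := by
  have hl0 : (0 : ℤ) ≤ l := by omega
  have h1 : ((l.toNat : ℕ) : ℤ) = l := Int.toNat_of_nonneg hl0
  rw [← h1, Nat.isCoprime_iff_coprime, Nat.Prime.coprime_iff_not_dvd hp]
  intro h2
  have h3 := Nat.le_of_dvd (by omega) h2
  omega

open scoped Classical in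
private theorem TIB_swap (r A W : ℕ) (l : ℤ) (F : ℕ → ℤ → ℝ)
    (hpos : ∀ a ∈ Icc (1 : ℤ) A, 0 < nn (a, l)) :
    ∑ a ∈ Icc (1 : ℤ) A with (a % 2 = 1 ∧ RgN (Zr r) (nn (a, l))),
        ∑ d ∈ (nn (a, l)).divisors with d ≤ W, F d a =
      ∑ d ∈ Icc 1 W with RgN (Zr r) d,
        ∑ a ∈ Icc (1 : ℤ) A with (a % 2 = 1 ∧ d ∣ nn (a, l) ∧ RgN (Zr r) (nn (a, l))), F d a := by
  have h1 : ∀ a ∈ (Icc (1 : ℤ) A).filter (fun a => a % 2 = 1 ∧ RgN (Zr r) (nn (a, l))),
      ∑ d ∈ (nn (a, l)).divisors with d ≤ W, F d a =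
      ∑ d ∈ Icc 1 W with RgN (Zr r) d, if d ∣ nn (a, l) then F d a else 0 := by
    intro a ha
    rw [mem_filter] at ha
    have h2 : (nn (a, l)).divisors.filter (fun d => d ≤ W) =
        ((Icc 1 W).filter fun d => RgN (Zr r) d).filter fun d => d ∣ nn (a, l) := by
      ext d
      rw [mem_filter, mem_filter, mem_filter, Nat.mem_divisors, mem_Icc]
      constructor
      · rintro ⟨⟨h3, h4⟩, h5⟩
        exact ⟨⟨⟨Nat.pos_of_dvd_of_pos h3 (hpos a ha.1), h5⟩, TIB_rg _ _ _ ha.2.2 h3⟩, h3⟩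
      · rintro ⟨⟨⟨h3, h4⟩, -⟩, h5⟩
        exact ⟨⟨h5, (hpos a ha.1).ne'⟩, h4⟩
    rw [h2, ← Finset.sum_filter]
  rw [Finset.sum_congr rfl h1, Finset.sum_comm]
  refine Finset.sum_congr rfl fun d _ => ?_
  rw [← Finset.sum_filter, Finset.filter_filter]
  refine Finset.sum_congr ?_ fun _ _ => rfl
  ext a
  rw [mem_filter, mem_filter]
  tauto

theorem TIB (hTSA : TSA_stmt) (hROO : ROO_stmt) : TIB_stmt := by
  classical
  intro η hη B C₀
  obtain ⟨x₁, hTSA⟩ := hTSA (η / 8) (by positivity) (B + 6) C₀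
  obtain ⟨x₂, hasy⟩ := TIB_asy η hη (B + 2)
  refine ⟨x₁ + x₂ + 2, ?_⟩
  intro x hx r hr A hA1 hA2 U V D hV hD l hl1 hl2 hlp
  obtain ⟨ha1, ha3⟩ := hasy x (by omega)
  have hx2 : (2 : ℝ) ≤ x := by exact_mod_cast (by omega : 2 ≤ x)
  have hx0 : (0 : ℝ) < x := by linarith
  have hx1 : (1 : ℝ) ≤ x := by linarith
  set L := Real.log x with hLd
  have hL0 : 0 < L := by linarith
  have hL1 : 1 ≤ L := by linarith
  have hAr : (A : ℝ) ≤ x := by exact_mod_cast hA2
  have hη3 : η ≤ 1 / 3 := by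
    by_contra hcon
    have h1 : (x : ℝ) ^ (1 : ℝ) < (x : ℝ) ^ (2 / 3 + η) :=
      Real.rpow_lt_rpow_of_exponent_lt (by linarith) (by linarith)
    rw [Real.rpow_one] at h1
    linarith
  have hA0 : (1 : ℝ) ≤ A := by
    have h1 : (1 : ℝ) ≤ (x : ℝ) ^ (2 / 3 + η) := Real.one_le_rpow hx1 (by linarith)
    linarith
  have hAn : 1 ≤ A := by exact_mod_cast hA0
  set y : ℝ := (x : ℝ) ^ (2 / 3 + 3 * η / 4) with hy
  have hy1 : 1 ≤ y := Real.one_le_rpow hx1 (by linarith)
  have hy0 : 0 < y := by linarith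
  have hyx : y ≤ x := by
    have h1 : y ≤ (x : ℝ) ^ (1 : ℝ) := Real.rpow_le_rpow_of_exponent_le hx1 (by linarith)
    rwa [Real.rpow_one] at h1
  -- `x^(η/8) y · 12 L^(B+2) ≤ A`
  have hyA : (x : ℝ) ^ (η / 8) * y * (12 * L ^ (B + 2)) ≤ A := by
    have h1 : (x : ℝ) ^ (η / 8) * y * (x : ℝ) ^ (η / 8) = (x : ℝ) ^ (2 / 3 + η) := by
      rw [hy, ← Real.rpow_add hx0, ← Real.rpow_add hx0]
      congr 1
      ring
    calc (x : ℝ) ^ (η / 8) * y * (12 * L ^ (B + 2)) ≤ (x : ℝ) ^ (η / 8) * y * (x : ℝ) ^ (η / 8) :=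
          mul_le_mul_of_nonneg_left ha1 (by positivity)
      _ = (x : ℝ) ^ (2 / 3 + η) := h1
      _ ≤ A := hA1
  have hpos : ∀ a ∈ Icc (1 : ℤ) A, 0 < nn (a, l) := fun a ha => TIB_pos x A hA2 l a hl1 ha
  set e : ℕ → ℝ := fun d => (#d.divisors : ℝ) * (A / (d * L ^ (B + 6)) + (x : ℝ) ^ (η / 8)) with he
  have he0 : ∀ d, 0 ≤ e d := fun d => by
    rw [he]
    positivity
  have hTI : ∀ d : ℕ, 1 ≤ d → d ≤ x → RgN (Zr r) d → ∀ h : ℕ, h ≤ 1 →
      |∑ a ∈ Icc (1 : ℤ) A with (a % 2 = 1 ∧ d ∣ nn (a, l) ∧ RgN (Zr r) (nn (a, l))),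
          Real.log (nn (a, l)) ^ h
        - WZ r * (rt d / (2 * d) * ∑ a ∈ Icc (1 : ℤ) A, Real.log (nn (a, l)) ^ h)| ≤ e d := by
    intro d hd1 hd2 hd3 h hh
    refine (hTSA x (by omega) r hr A hAn hA2 d hd1 hd3 l hl1 hl2 hlp
      (TIB_cop x d hd1 hd2 l hl1 hlp) h hh).trans ?_
    rw [he]
    refine mul_le_mul_of_nonneg_right ?_ (by positivity)
    exact_mod_cast hROO d (TIB_odd r d hd3)
  -- the sum of the errors
  have hE : ∀ W : ℕ, (W : ℝ) ≤ y → ∑ d ∈ Icc 1 W with RgN (Zr r) d, e d ≤ A / (3 * L ^ (B + 1)) := by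
    intro W hW
    have hWx : (W : ℝ) ≤ x := hW.trans hyx
    have h0 : ∑ d ∈ Icc 1 W with RgN (Zr r) d, e d ≤ ∑ d ∈ Icc 1 W, e d :=
      Finset.sum_le_sum_of_subset_of_nonneg (Finset.filter_subset _ _) fun d _ _ => he0 d
    refine h0.trans ?_
    rcases Nat.eq_zero_or_pos W with hW0 | hW0
    · rw [hW0, Finset.Icc_eq_empty (by norm_num), Finset.sum_empty]
      positivity
    · have hWr1 : (1 : ℝ) ≤ W := by exact_mod_cast hW0
      have hlogW : Real.log W ≤ L := Real.log_le_log (by linarith) hWx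
      have hlogW0 : 0 ≤ Real.log W := Real.log_natCast_nonneg W
      obtain ⟨t1, t2⟩ := TIB_tau W
      have h1 : ∑ d ∈ Icc 1 W, e d = A / L ^ (B + 6) * ∑ d ∈ Icc 1 W, (#d.divisors : ℝ) / d +
          (x : ℝ) ^ (η / 8) * ∑ d ∈ Icc 1 W, (#d.divisors : ℝ) := by
        rw [Finset.mul_sum, Finset.mul_sum, ← Finset.sum_add_distrib]
        refine Finset.sum_congr rfl fun d hd => ?_
        rw [mem_Icc] at hd
        have hd0 : (0 : ℝ) < d := by exact_mod_cast hd.1
        rw [he]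
        field_simp
      have h2 : ∑ d ∈ Icc 1 W, (#d.divisors : ℝ) / d ≤ 4 * L ^ 2 := by
        refine t1.trans ?_
        nlinarith
      have h3 : ∑ d ∈ Icc 1 W, (#d.divisors : ℝ) ≤ y * (2 * L) := by
        refine t2.trans ?_
        refine mul_le_mul hW (by linarith) (by linarith) hy0.le
      have h4 : A / L ^ (B + 6) * ∑ d ∈ Icc 1 W, (#d.divisors : ℝ) / d ≤
          A / (6 * L ^ (B + 1)) := by
        have h6 : L ^ (B + 6) = L ^ (B + 1) * L ^ 3 * L ^ 2 := by rw [← pow_add, ← pow_add]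
        have h7 : (24 : ℝ) ≤ L ^ 3 := by
          have h8 : (1 : ℝ) ≤ L ^ 2 := one_le_pow₀ hL1
          nlinarith
        calc A / L ^ (B + 6) * ∑ d ∈ Icc 1 W, (#d.divisors : ℝ) / d
            ≤ A / L ^ (B + 6) * (4 * L ^ 2) :=
              mul_le_mul_of_nonneg_left h2 (by positivity)
          _ = A / (L ^ (B + 1) * (L ^ 3 / 4)) := by
              rw [h6]
              field_simp
          _ ≤ A / (L ^ (B + 1) * 6) := by
              refine div_le_div_of_nonneg_left (by linarith) (by positivity) ?_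
              exact mul_le_mul_of_nonneg_left (by linarith) (by positivity)
          _ = A / (6 * L ^ (B + 1)) := by rw [mul_comm (L ^ (B + 1)) 6]
      have h5 : (x : ℝ) ^ (η / 8) * ∑ d ∈ Icc 1 W, (#d.divisors : ℝ) ≤ A / (6 * L ^ (B + 1)) := by
        rw [le_div_iff₀ (by positivity)]
        calc (x : ℝ) ^ (η / 8) * (∑ d ∈ Icc 1 W, (#d.divisors : ℝ)) * (6 * L ^ (B + 1))
            ≤ (x : ℝ) ^ (η / 8) * (y * (2 * L)) * (6 * L ^ (B + 1)) := by
              refine mul_le_mul_of_nonneg_right (mul_le_mul_of_nonneg_left h3 (by positivity))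
                (by positivity)
          _ = (x : ℝ) ^ (η / 8) * y * (12 * L ^ (B + 2)) := by ring
          _ ≤ A := hyA
      rw [h1]
      calc _ ≤ A / (6 * L ^ (B + 1)) + A / (6 * L ^ (B + 1)) := add_le_add h4 h5
        _ = A / (3 * L ^ (B + 1)) := by
            field_simp
            ring
  have hVx : V ≤ x := by
    have h1 : (V : ℝ) ≤ x := hV.trans hyx
    exact_mod_cast h1
  have hDx : D ≤ x := by
    have h1 : (D : ℝ) ≤ x := hD.trans hyx
    exact_mod_cast h1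
  have hlogd : ∀ d : ℕ, 1 ≤ d → d ≤ x → 0 ≤ Real.log d ∧ Real.log d ≤ L := fun d h1 h2 =>
    ⟨Real.log_natCast_nonneg d, Real.log_le_log (by exact_mod_cast h1) (by exact_mod_cast h2)⟩
  -- the main identity
  set S1 : ℝ := ∑ a ∈ Icc (1 : ℤ) A, Real.log (nn (a, l)) ^ 1 with hS1
  set S0 : ℝ := ∑ a ∈ Icc (1 : ℤ) A, Real.log (nn (a, l)) ^ 0 with hS0
  have hS0A : S0 = A := by
    rw [hS0]
    simp
  have hS1A : S1 = ∑ a ∈ Icc (1 : ℤ) A, Real.log (nn (a, l)) := by
    rw [hS1]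
    simp
  set T : ℕ → ℕ → ℝ := fun h d => ∑ a ∈ Icc (1 : ℤ) A with
    (a % 2 = 1 ∧ d ∣ nn (a, l) ∧ RgN (Zr r) (nn (a, l))), Real.log (nn (a, l)) ^ h with hT
  have hid1 : ∑ a ∈ Icc (1 : ℤ) A with (a % 2 = 1 ∧ RgN (Zr r) (nn (a, l))),
      (∑ d ∈ (nn (a, l)).divisors with d ≤ V, (ArithmeticFunction.moebius d : ℝ) *
          Real.log (nn (a, l) / d : ℝ) - ∑ q ∈ (nn (a, l)).divisors with q ≤ D, cc U V q) =
      ∑ d ∈ Icc 1 V with RgN (Zr r) d, (ArithmeticFunction.moebius d : ℝ) *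
          (T 1 d - Real.log d * T 0 d) - ∑ q ∈ Icc 1 D with RgN (Zr r) q, cc U V q * T 0 q := by
    rw [Finset.sum_sub_distrib, TIB_swap r A V l (fun d a => (ArithmeticFunction.moebius d : ℝ) *
      Real.log (nn (a, l) / d : ℝ)) hpos, TIB_swap r A D l (fun q _ => cc U V q) hpos]
    congr 1
    · refine Finset.sum_congr rfl fun d hd => ?_
      rw [mem_filter, mem_Icc] at hd
      have hd0 : (0 : ℝ) < d := by exact_mod_cast hd.1.1
      rw [hT]
      simp only
      rw [Finset.mul_sum, ← Finset.sum_sub_distrib, Finset.mul_sum]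
      refine Finset.sum_congr rfl fun a ha => ?_
      have h3 := hpos a (mem_filter.1 ha).1
      have h4 : (0 : ℝ) < nn (a, l) := by exact_mod_cast h3
      rw [Real.log_div h4.ne' hd0.ne']
      ring
    · refine Finset.sum_congr rfl fun q _ => ?_
      rw [hT]
      simp only
      rw [Finset.mul_sum]
      refine Finset.sum_congr rfl fun a _ => ?_
      rw [pow_zero, mul_one]
  have hid2 : Mn r U V D A l =
      ∑ d ∈ Icc 1 V with RgN (Zr r) d, (ArithmeticFunction.moebius d : ℝ) *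
          (WZ r * (rt d / (2 * d) * S1) - Real.log d * (WZ r * (rt d / (2 * d) * S0))) -
        ∑ q ∈ Icc 1 D with RgN (Zr r) q, cc U V q * (WZ r * (rt q / (2 * q) * S0)) := by
    unfold Mn mc1 mc2
    rw [← hS1A, hS0A]
    have e1 : ∀ S : ℝ, ∑ d ∈ Icc 1 V with RgN (Zr r) d, (ArithmeticFunction.moebius d : ℝ) *
          (WZ r * (rt d / (2 * d) * S) - Real.log d * (WZ r * (rt d / (2 * d) * A))) =
        WZ r / 2 * (∑ d ∈ Icc 1 V with RgN (Zr r) d, (ArithmeticFunction.moebius d : ℝ) * rt d / d) * S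
        - WZ r / 2 * (∑ d ∈ Icc 1 V with RgN (Zr r) d,
          (ArithmeticFunction.moebius d : ℝ) * rt d / d * Real.log d) * A := by
      intro S
      rw [Finset.mul_sum, Finset.mul_sum, Finset.sum_mul, Finset.sum_mul, ← Finset.sum_sub_distrib]
      refine Finset.sum_congr rfl fun d _ => ?_
      ring
    have e2 : ∑ q ∈ Icc 1 D with RgN (Zr r) q, cc U V q * (WZ r * (rt q / (2 * q) * A)) =
        WZ r / 2 * (∑ q ∈ Icc 1 D with RgN (Zr r) q, cc U V q * rt q / q) * A := by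
      rw [Finset.mul_sum, Finset.sum_mul]
      refine Finset.sum_congr rfl fun d _ => ?_
      ring
    rw [e1, e2]
    ring
  rw [hid1, hid2]
  have hid3 : ∀ a b c d : ℝ, a - b - (c - d) = (a - c) - (b - d) := fun a b c d => by ring
  rw [hid3, ← Finset.sum_sub_distrib, ← Finset.sum_sub_distrib]
  refine (abs_sub _ _).trans ?_
  have hb1 : |∑ d ∈ Icc 1 V with RgN (Zr r) d, ((ArithmeticFunction.moebius d : ℝ) *
      (T 1 d - Real.log d * T 0 d) - (ArithmeticFunction.moebius d : ℝ) *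
        (WZ r * (rt d / (2 * d) * S1) - Real.log d * (WZ r * (rt d / (2 * d) * S0))))| ≤
      2 * L * (A / (3 * L ^ (B + 1))) := by
    refine (Finset.abs_sum_le_sum_abs _ _).trans ?_
    refine le_trans ?_ (mul_le_mul_of_nonneg_left (hE V hV) (by positivity))
    rw [Finset.mul_sum]
    refine Finset.sum_le_sum fun d hd => ?_
    rw [mem_filter, mem_Icc] at hd
    obtain ⟨⟨hd1, hd2⟩, hd3⟩ := hd
    have h7 := hTI d hd1 (hd2.trans hVx) hd3 1 le_rfl
    have h8 := hTI d hd1 (hd2.trans hVx) hd3 0 (by omega)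
    obtain ⟨h9, h10⟩ := hlogd d hd1 (hd2.trans hVx)
    have h5 : |(ArithmeticFunction.moebius d : ℝ)| ≤ 1 := by
      have h6 : |ArithmeticFunction.moebius d| ≤ 1 := ArithmeticFunction.abs_moebius_le_one
      exact_mod_cast h6
    have h11 : (ArithmeticFunction.moebius d : ℝ) * (T 1 d - Real.log d * T 0 d) -
        (ArithmeticFunction.moebius d : ℝ) *
        (WZ r * (rt d / (2 * d) * S1) - Real.log d * (WZ r * (rt d / (2 * d) * S0))) =
        (ArithmeticFunction.moebius d : ℝ) * ((T 1 d - WZ r * (rt d / (2 * d) * S1)) -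
          Real.log d * (T 0 d - WZ r * (rt d / (2 * d) * S0))) := by ring
    rw [h11, abs_mul]
    have he1 := he0 d
    calc _ ≤ 1 * (|T 1 d - WZ r * (rt d / (2 * d) * S1)| +
          |Real.log d * (T 0 d - WZ r * (rt d / (2 * d) * S0))|) :=
          mul_le_mul h5 (abs_sub _ _) (abs_nonneg _) (by norm_num)
      _ ≤ 1 * (e d + L * e d) := by
          rw [abs_mul, abs_of_nonneg h9]
          refine mul_le_mul_of_nonneg_left (add_le_add h7 ?_) (by norm_num)
          exact mul_le_mul h10 h8 (abs_nonneg _) hL0.le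
      _ ≤ 2 * L * e d := by nlinarith
  have hb2 : |∑ q ∈ Icc 1 D with RgN (Zr r) q, (cc U V q * T 0 q -
      cc U V q * (WZ r * (rt q / (2 * q) * S0)))| ≤ L * (A / (3 * L ^ (B + 1))) := by
    refine (Finset.abs_sum_le_sum_abs _ _).trans ?_
    refine le_trans ?_ (mul_le_mul_of_nonneg_left (hE D hD) (by positivity))
    rw [Finset.mul_sum]
    refine Finset.sum_le_sum fun q hq => ?_
    rw [mem_filter, mem_Icc] at hq
    obtain ⟨⟨hd1, hd2⟩, hd3⟩ := hq
    have h8 := hTI q hd1 (hd2.trans hDx) hd3 0 (by omega)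
    obtain ⟨h9, h10⟩ := hlogd q hd1 (hd2.trans hDx)
    rw [← mul_sub, abs_mul]
    exact mul_le_mul ((TIB_cc U V q).trans h10) h8 (abs_nonneg _) hL0.le
  refine (add_le_add hb1 hb2).trans (le_of_eq ?_)
  have h12 : L ^ (B + 1) = L ^ B * L := pow_succ L B
  rw [h12]
  field_simp
  ring

end Pool.Agent.EU
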